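import Mathlib
import Pool.Agent.P.MP_e6b138_co.Div.Develop

namespace Pool.Agent.Results.MP_e6b138_co.Divisible

/-- Q1 when the faces are properly coloured by `κ` with three classes and every face of class `i`
has length divisible by `2 * a i`, with `2 ≤ a i`. -/
theorem result : ∀ (n : ℕ) (σ α : Equiv.Perm (Fin n)),
    (∀ x, σ x ≠ x ∧ σ (σ (σ x)) = x) →
    (∀ x, α x ≠ x ∧ α (α x) = x) →
    (∀ x y, ∃ g ∈ Subgroup.closure ({σ, α} : Set (Equiv.Perm (Fin n))), g x = y) →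
    (∃ side : Fin n → Bool, ∀ x, side (σ x) = side x ∧ side (α x) ≠ side x) →
    6 * Nat.card (Quotient (Equiv.Perm.SameCycle.setoid (σ * α))) = n + 12 →
    ∀ (κ : Fin n → Fin 3) (a : Fin 3 → ℕ), (∀ x, κ ((σ * α) x) = κ x ∧ κ (σ x) ≠ κ x) →
      (∀ i, 2 ≤ a i) →
      (∀ x, 2 * a (κ x) ∣ Function.minimalPeriod (σ * α : Equiv.Perm (Fin n)) x) →
    ∃ c : Fin n → Fin 7, (∀ x, c ((σ * α) x) = c x) ∧
      ∀ d x y, (σ.SameCycle d x ∨ σ.SameCycle (α d) x) →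
        (σ.SameCycle d y ∨ σ.SameCycle (α d) y) →
        c x = c y → (σ * α).SameCycle x y := by
  rintro n σ α h1 h2 h3 ⟨side, h4⟩ h5 κ a h6 h7 h8
  let D : Pool.Agent.P.MP_e6b138_co.Dart (Fin n) :=
    ⟨σ, α, side, fun x => (h1 x).2, fun x => (h2 x).2, fun x => (h4 x).1,
      fun x => Bool.eq_not.2 (h4 x).2⟩
  have h9 : 6 * Nat.card (Quotient (Equiv.Perm.SameCycle.setoid (D.σ * D.α))) =
      Fintype.card (Fin n) + 12 := by
    rw [Fintype.card_fin]
    exact h5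
  exact D.colour (fun _ => Pool.Agent.P.MP_e6b138_co.Div.dart_colour D h3 h9 κ a
    (fun x => (h6 x).1) (fun x => (h6 x).2) h7 h8) h3 h9

end Pool.Agent.Results.MP_e6b138_co.Divisible
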